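import Pool.Agent.Q19.HO.Stm

/-! Job ODD of project HO: similitudes in odd dimension. -/

set_option autoImplicit false

namespace Pool.Agent.Q65.HO.ODD

open Matrix Pool.Agent.Q19.HO

theorem t : Pool.Agent.Q19.HO.S_ODD := by
  intro K _ n hn
  obtain ⟨m, hm⟩ := hn
  have i0 : Fin n := ⟨0, by omega⟩
  refine ⟨?_, ?_⟩
  · rintro g ⟨r, hr⟩
    have hdet : (g : Matrix (Fin n) (Fin n) K).det ≠ 0 := by
      have h1 : IsUnit (g : Matrix (Fin n) (Fin n) K) := g.isUnit
      exact ((Matrix.isUnit_iff_isUnit_det _).1 h1).ne_zero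
    set d := (g : Matrix (Fin n) (Fin n) K).det with hd
    have h2 : d ^ 2 = r ^ n := by
      have := congrArg Matrix.det hr
      rw [Matrix.det_mul, Matrix.det_transpose, Matrix.det_smul, Matrix.det_one, mul_one,
        Fintype.card_fin] at this
      rw [sq]
      exact this
    have hr0 : r ≠ 0 := by
      rintro rfl
      rw [zero_pow (by omega)] at h2
      exact hdet (pow_eq_zero_iff (by norm_num) |>.1 h2)
    have hrm : r ^ m ≠ 0 := pow_ne_zero _ hr0
    have hν : d / r ^ m ≠ 0 := div_ne_zero hdet hrm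
    have hν2 : (d / r ^ m) ^ 2 = r := by
      rw [div_pow, h2, hm]
      field_simp
      ring
    refine ⟨d / r ^ m, (d / r ^ m)⁻¹ • (g : Matrix (Fin n) (Fin n) K), hν, ?_, ?_, ?_⟩
    · rw [Matrix.transpose_smul, Matrix.smul_mul, Matrix.mul_smul, hr, smul_smul, smul_smul]
      have : (d / r ^ m)⁻¹ * (d / r ^ m)⁻¹ * r = 1 := by
        rw [← mul_inv, ← sq, hν2]
        exact inv_mul_cancel₀ hr0
      rw [this, one_smul]
    · rw [Matrix.det_smul, Fintype.card_fin, inv_pow, ← hd]
      have : (d / r ^ m) ^ n = d := by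
        rw [hm, pow_succ, pow_mul, hν2]
        field_simp
      rw [this]
      exact inv_mul_cancel₀ hdet
    · rw [smul_smul, mul_inv_cancel₀ hν, one_smul]
  · intro r h1 h2
    have h3 := congrFun (congrFun h1 i0) i0
    rw [Matrix.transpose_smul, Matrix.transpose_one, Matrix.smul_mul, Matrix.one_mul,
      smul_smul, Matrix.smul_apply, Matrix.one_apply_eq, smul_eq_mul, mul_one] at h3
    rw [Matrix.det_smul, Matrix.det_one, mul_one, Fintype.card_fin, hm, pow_succ, pow_mul, sq,
      h3, one_pow, one_mul] at h2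
    exact h2

end Pool.Agent.Q65.HO.ODD
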